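import Pool.Agent.Helper5.WD.Stmts

/-!
# WD, row XF1: Rosenfeld's induction at the good vertices
-/

set_option autoImplicit false

open Finset Pool.Agent.Helper8.UN Pool.Agent.Helper5.FV

namespace Pool.Agent.Helper5.WD

theorem xf60_mf {α : Type} (p : α → Prop) (dp : DecidablePred p) (s : Finset α) (a : α) :
    a ∈ @Finset.filter α p dp s ↔ a ∈ s ∧ p a := Finset.mem_filter

theorem xf60_det {n : ℕ} (E : Finset (Finset (Fin n))) (hT : Two E) (f : Fin n → ℕ) (y : Fin n)
    (i j : ℕ) (e : Finset (Fin n)) (he : e ∈ E) (hi : ∀ u ∈ e, u ≠ y → f u = i)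
    (hj : ∀ u ∈ e, u ≠ y → f u = j) : i = j := by
  have h1 : 1 < e.card := hT e he
  obtain ⟨u, hu, huy⟩ := exists_mem_ne h1 y
  rw [← hi u hu huy, hj u hu huy]

theorem xf60_memCC {n : ℕ} (E : Finset (Finset (Fin n))) (W : Finset (Fin n)) (k : ℕ)
    (f : Fin n → ℕ) : f ∈ CC E W k ↔
      (∀ v, (v ∈ W → 1 ≤ f v ∧ f v ≤ k) ∧ (v ∉ W → f v = 0)) ∧ Prp E W f := by
  classical
  unfold CC
  rw [mem_filter, Fintype.mem_piFinset]
  refine and_congr_left fun _ => forall_congr' fun v => ?_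
  by_cases hv : v ∈ W
  · simp [hv]
  · simp [hv]

open scoped Classical in
/-- colourings constant on a set -/
theorem xf60_const {n : ℕ} (E : Finset (Finset (Fin n))) (W' T : Finset (Fin n)) (k : ℕ)
    (a : Fin n) (hT : T ⊆ W') (ha : a ∈ T) :
    ((CC E W' k).filter (fun f => ∀ u ∈ T, f u = f a)).card ≤ PP E (W' \ T.erase a) k := by
  unfold PP
  refine Finset.card_le_card_of_injOn (fun f v => if v ∈ W' \ T.erase a then f v else 0) ?_ ?_
  · intro f hf
    rw [mem_coe, xf60_mf, xf60_memCC] at hf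
    rw [mem_coe, xf60_memCC]
    obtain ⟨⟨h1, h2⟩, -⟩ := hf
    refine ⟨fun v => ⟨fun hv => ?_, fun hv => ?_⟩, ?_⟩
    · simp only [hv, if_true]
      exact (h1 v).1 (mem_sdiff.1 hv).1
    · simp only [hv, if_false]
    · intro e he heW
      obtain ⟨u, hu, v, hv, huv⟩ := h2 e he (heW.trans sdiff_subset)
      refine ⟨u, hu, v, hv, ?_⟩
      simp only [heW hu, heW hv, if_true]
      exact huv
  · intro f hf g hg hfg
    rw [mem_coe, xf60_mf, xf60_memCC] at hf hg
    obtain ⟨⟨h1, -⟩, h3⟩ := hf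
    obtain ⟨⟨g1, -⟩, g3⟩ := hg
    have key : ∀ v, v ∈ W' \ T.erase a → f v = g v := by
      intro v hv
      have := congrFun hfg v
      simpa only [hv, if_true] using this
    have haa : a ∈ W' \ T.erase a := mem_sdiff.2 ⟨hT ha, fun h => (mem_erase.1 h).1 rfl⟩
    funext v
    by_cases hv : v ∈ W'
    · by_cases hvT : v ∈ T.erase a
      · have hvT' := (mem_erase.1 hvT).2
        rw [h3 v hvT', g3 v hvT', key a haa]
      · exact key v (mem_sdiff.2 ⟨hv, hvT⟩)
    · rw [(h1 v).2 hv, (g1 v).2 hv]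

open scoped Classical in
/-- the blocked colours -/
theorem xf60_bk {n : ℕ} (D0 r : ℕ) (E : Finset (Finset (Fin n))) (W0 : Finset (Fin n))
    (y : Fin n) (hT : Two E) (hr : 4 ≤ r) (hDeg : (E.filter (fun e => y ∈ e ∧ (e.card < 4 ∨
    (e.card < r ∧ (e ∩ W0).Nonempty)))).card ≤ D0) (W : Finset (Fin n)) (k : ℕ) (f : Fin n → ℕ) :
    bk E W k f y ≤ D0 + n / (r - 1) +
      (((E.filter (fun e => e ⊆ univ \ W0)).filter
        (fun e => y ∈ e ∧ 3 ≤ e.card ∧ e.card < r)).filter
        (fun e => e ⊆ W ∧ ∀ u ∈ e, ∀ v ∈ e, u ≠ y → v ≠ y → f u = f v)).card := by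
  unfold bk
  have hch : ∀ i, Blk E W f y i → ∃ e ∈ E, e ⊆ W ∧ y ∈ e ∧ ∀ u ∈ e, u ≠ y → f u = i :=
    fun i h => h
  choose! g hg1 hg2 hg3 hg4 using hch
  have hsplit : (Finset.Icc 1 k).filter (fun i => Blk E W f y i) ⊆
      (((Finset.Icc 1 k).filter (fun i => Blk E W f y i ∧ ((g i).card < 4 ∨
        ((g i).card < r ∧ (g i ∩ W0).Nonempty)))) ∪
        ((Finset.Icc 1 k).filter (fun i => Blk E W f y i ∧ r ≤ (g i).card))) ∪
        ((Finset.Icc 1 k).filter (fun i => Blk E W f y i ∧ (g i).card < r ∧ 3 ≤ (g i).card ∧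
          ¬ (g i ∩ W0).Nonempty)) := by
    intro i hi
    rw [xf60_mf] at hi
    rw [mem_union, mem_union, xf60_mf, xf60_mf, xf60_mf]
    rcases lt_or_ge (g i).card r with h | h
    · by_cases h2 : (g i ∩ W0).Nonempty
      · exact Or.inl (Or.inl ⟨hi.1, hi.2, Or.inr ⟨h, h2⟩⟩)
      · rcases lt_or_ge (g i).card 4 with h3 | h3
        · exact Or.inl (Or.inl ⟨hi.1, hi.2, Or.inl h3⟩)
        · exact Or.inr ⟨hi.1, hi.2, h, by omega, h2⟩
    · exact Or.inl (Or.inr ⟨hi.1, hi.2, h⟩)
  have hinj : ∀ i j, Blk E W f y i → Blk E W f y j → g i = g j → i = j := by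
    intro i j hi hj hij
    refine xf60_det E hT f y i j (g i) (hg1 i hi) (hg4 i hi) ?_
    rw [hij]
    exact hg4 j hj
  have hA : ((Finset.Icc 1 k).filter (fun i => Blk E W f y i ∧ ((g i).card < 4 ∨
        ((g i).card < r ∧ (g i ∩ W0).Nonempty)))).card ≤ D0 := by
    refine le_trans ?_ hDeg
    refine Finset.card_le_card_of_injOn g ?_ ?_
    · intro i hi
      rw [mem_coe, xf60_mf] at hi
      rw [mem_coe, xf60_mf]
      exact ⟨hg1 i hi.2.1, hg3 i hi.2.1, hi.2.2⟩
    · intro i hi j hj hij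
      rw [mem_coe, xf60_mf] at hi hj
      exact hinj i j hi.2.1 hj.2.1 hij
  have hC : ((Finset.Icc 1 k).filter (fun i => Blk E W f y i ∧ (g i).card < r ∧
      3 ≤ (g i).card ∧ ¬ (g i ∩ W0).Nonempty)).card ≤
      (((E.filter (fun e => e ⊆ univ \ W0)).filter
        (fun e => y ∈ e ∧ 3 ≤ e.card ∧ e.card < r)).filter
        (fun e => e ⊆ W ∧ ∀ u ∈ e, ∀ v ∈ e, u ≠ y → v ≠ y → f u = f v)).card := by
    refine Finset.card_le_card_of_injOn g ?_ ?_
    · intro i hi
      rw [mem_coe, xf60_mf] at hi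
      rw [mem_coe, xf60_mf, xf60_mf, xf60_mf]
      obtain ⟨-, hb, h1, h2, h3⟩ := hi
      refine ⟨⟨⟨hg1 i hb, ?_⟩, hg3 i hb, h2, h1⟩, hg2 i hb, ?_⟩
      · intro u hu
        refine mem_sdiff.2 ⟨mem_univ _, fun h => h3 ⟨u, mem_inter.2 ⟨hu, h⟩⟩⟩
      · intro u hu v hv huy hvy
        rw [hg4 i hb u hu huy, hg4 i hb v hv hvy]
    · intro i hi j hj hij
      rw [mem_coe, xf60_mf] at hi hj
      exact hinj i j hi.2.1 hj.2.1 hij
  have hB : ((Finset.Icc 1 k).filter (fun i => Blk E W f y i ∧ r ≤ (g i).card)).card ≤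
      n / (r - 1) := by
    rw [Nat.le_div_iff_mul_le (by omega)]
    have h1 : ∀ i ∈ (Finset.Icc 1 k).filter (fun i => Blk E W f y i ∧ r ≤ (g i).card),
        r - 1 ≤ (Finset.univ.filter (fun v : Fin n => f v = i)).card := by
      intro i hi
      rw [xf60_mf] at hi
      have h2 : ((g i).erase y).card = (g i).card - 1 := card_erase_of_mem (hg3 i hi.2.1)
      have h3 : (g i).erase y ⊆ Finset.univ.filter (fun v : Fin n => f v = i) := by
        intro u hu
        rw [mem_erase] at hu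
        rw [xf60_mf]
        exact ⟨mem_univ _, hg4 i hi.2.1 u hu.2 hu.1⟩
      have h4 := card_le_card h3
      have h5 := hi.2.2
      omega
    have h2 := Finset.sum_le_sum h1
    rw [sum_const, smul_eq_mul] at h2
    refine le_trans h2 ?_
    have h3 : ∑ i ∈ (Finset.Icc 1 k).filter (fun i => Blk E W f y i ∧ r ≤ (g i).card),
        (Finset.univ.filter (fun v : Fin n => f v = i)).card =
        (((Finset.Icc 1 k).filter (fun i => Blk E W f y i ∧ r ≤ (g i).card)).biUnion
          (fun i => Finset.univ.filter (fun v : Fin n => f v = i))).card := by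
      rw [card_biUnion]
      intro i _ j _ hij
      rw [Function.onFun, disjoint_left]
      intro v hv hv2
      rw [xf60_mf] at hv hv2
      exact hij (by rw [← hv.2, hv2.2])
    rw [h3]
    refine le_trans (card_le_univ _) ?_
    rw [Fintype.card_fin]
  refine le_trans (card_le_card hsplit) (le_trans (card_union_le _ _) ?_)
  exact add_le_add (le_trans (card_union_le _ _) (add_le_add hA hB)) hC

/-- one vertex -/
theorem xf60_step (hCNT : ST_CNT) {n : ℕ} (D0 r k : ℕ) (E : Finset (Finset (Fin n)))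
    (W0 : Finset (Fin n)) (hT : Two E) (hr : 4 ≤ r) (hDk : DX n D0 r < k)
    (V : Finset (Fin n)) (y : Fin n) (hy : y ∈ V)
    (hDeg : (E.filter (fun e => y ∈ e ∧ (e.card < 4 ∨
      (e.card < r ∧ (e ∩ W0).Nonempty)))).card ≤ D0)
    (hws : ws (E.filter (fun e => e ⊆ univ \ W0)) r ((k : ℝ) - DX n D0 r) y ≤ 1)
    (hIH : ∀ U : Finset (Fin n), Disjoint U W0 → U ⊆ V.erase y →
      (k - DX n D0 r) ^ U.card * PP E (V.erase y \ U) k ≤ PP E (V.erase y) k) :
    (k - DX n D0 r) * PP E (V.erase y) k ≤ PP E V k := by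
  classical
  have hDR : ((k - DX n D0 r : ℕ) : ℝ) = (k : ℝ) - DX n D0 r := by
    rw [Nat.cast_sub hDk.le]
  have hκ : 0 < (k : ℝ) - DX n D0 r := by
    have : (DX n D0 r : ℝ) < k := by exact_mod_cast hDk
    linarith
  set EF := (E.filter (fun e => e ⊆ univ \ W0)).filter
        (fun e => y ∈ e ∧ 3 ≤ e.card ∧ e.card < r) with hEF
  obtain ⟨hc, -⟩ := hCNT n k E V y hT hy
  -- the third part
  have h3 : ∑ f ∈ CC E (V.erase y) k, ((EF.filter
      (fun e => e ⊆ V ∧ ∀ u ∈ e, ∀ v ∈ e, u ≠ y → v ≠ y → f u = f v)).card : ℝ) ≤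
      PP E (V.erase y) k := by
    have e1 : ∑ f ∈ CC E (V.erase y) k, ((EF.filter
      (fun e => e ⊆ V ∧ ∀ u ∈ e, ∀ v ∈ e, u ≠ y → v ≠ y → f u = f v)).card : ℝ) =
      ∑ e ∈ EF, (((CC E (V.erase y) k).filter
        (fun f => e ⊆ V ∧ ∀ u ∈ e, ∀ v ∈ e, u ≠ y → v ≠ y → f u = f v)).card : ℝ) := by
      simp only [Finset.card_filter, Nat.cast_sum]
      exact Finset.sum_comm
    rw [e1]
    have e2 : ∀ e ∈ EF, (((CC E (V.erase y) k).filter
        (fun f => e ⊆ V ∧ ∀ u ∈ e, ∀ v ∈ e, u ≠ y → v ≠ y → f u = f v)).card : ℝ) ≤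
        PP E (V.erase y) k * (1 / ((k : ℝ) - DX n D0 r)) ^ (e.card - 2) := by
      intro e he
      rw [hEF, mem_filter, mem_filter] at he
      obtain ⟨⟨heE, heW⟩, hye, he3, her⟩ := he
      by_cases heV : e ⊆ V
      · have hT1 : 2 ≤ (e.erase y).card := by rw [card_erase_of_mem hye]; omega
        obtain ⟨a, ha⟩ : (e.erase y).Nonempty := card_pos.1 (by omega)
        have hTV : e.erase y ⊆ V.erase y := erase_subset_erase y heV
        have hUc : ((e.erase y).erase a).card = e.card - 2 := by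
          rw [card_erase_of_mem ha, card_erase_of_mem hye]; omega
        have h5 := hIH ((e.erase y).erase a) ?_ ((erase_subset _ _).trans hTV)
        · have h6 := xf60_const E (V.erase y) (e.erase y) k a hTV ha
          have h7 : ((CC E (V.erase y) k).filter
              (fun f => e ⊆ V ∧ ∀ u ∈ e, ∀ v ∈ e, u ≠ y → v ≠ y → f u = f v)).card ≤
              PP E (V.erase y \ (e.erase y).erase a) k := by
            refine le_trans (card_le_card ?_) h6
            intro f hf
            rw [mem_filter] at hf ⊢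
            refine ⟨hf.1, fun u hu => ?_⟩
            rw [mem_erase] at hu ha
            exact hf.2.2 u hu.2 a ha.2 hu.1 ha.1
          rw [hUc] at h5
          have h8 : ((k : ℝ) - DX n D0 r) ^ (e.card - 2) *
              PP E (V.erase y \ (e.erase y).erase a) k ≤ PP E (V.erase y) k := by
            rw [← hDR]
            exact_mod_cast h5
          have h9 : (((CC E (V.erase y) k).filter
              (fun f => e ⊆ V ∧ ∀ u ∈ e, ∀ v ∈ e, u ≠ y → v ≠ y → f u = f v)).card : ℝ) ≤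
              PP E (V.erase y \ (e.erase y).erase a) k := by exact_mod_cast h7
          refine le_trans h9 ?_
          rw [one_div, inv_pow, ← div_eq_mul_inv, le_div_iff₀ (by positivity), mul_comm]
          exact h8
        · refine disjoint_left.2 fun u hu hu0 => ?_
          have := heW (mem_of_mem_erase (mem_of_mem_erase hu))
          exact (mem_sdiff.1 this).2 hu0
      · have h0 : (CC E (V.erase y) k).filter
          (fun f => e ⊆ V ∧ ∀ u ∈ e, ∀ v ∈ e, u ≠ y → v ≠ y → f u = f v) = ∅ :=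
          filter_eq_empty_iff.2 fun f _ h => heV h.1
        rw [h0, card_empty, Nat.cast_zero]
        positivity
    refine le_trans (Finset.sum_le_sum e2) ?_
    rw [← Finset.mul_sum]
    have e3 : ∑ e ∈ EF, (1 / ((k : ℝ) - DX n D0 r)) ^ (e.card - 2) ≤ 1 := hws
    have e4 : (0 : ℝ) ≤ PP E (V.erase y) k := Nat.cast_nonneg _
    calc (PP E (V.erase y) k : ℝ) * ∑ e ∈ EF, (1 / ((k : ℝ) - DX n D0 r)) ^ (e.card - 2)
        ≤ PP E (V.erase y) k * 1 := mul_le_mul_of_nonneg_left e3 e4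
      _ = PP E (V.erase y) k := mul_one _
  -- all blocked colours
  have h4 : ∑ f ∈ CC E (V.erase y) k, (bk E V k f y : ℝ) ≤
      (DX n D0 r : ℝ) * PP E (V.erase y) k := by
    have h5 : ∀ f ∈ CC E (V.erase y) k, (bk E V k f y : ℝ) ≤ ((D0 + n / (r - 1) : ℕ) : ℝ) +
        ((EF.filter (fun e => e ⊆ V ∧ ∀ u ∈ e, ∀ v ∈ e, u ≠ y → v ≠ y → f u = f v)).card : ℝ) := by
      intro f _
      have := xf60_bk D0 r E W0 y hT hr hDeg V k f
      rw [← hEF] at this
      exact_mod_cast this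
    refine le_trans (Finset.sum_le_sum h5) ?_
    rw [Finset.sum_add_distrib, Finset.sum_const, nsmul_eq_mul]
    have e5 : ((CC E (V.erase y) k).card : ℝ) = PP E (V.erase y) k := rfl
    rw [e5]
    have e6 : (DX n D0 r : ℝ) = ((D0 + n / (r - 1) : ℕ) : ℝ) + 1 := by
      unfold DX
      push_cast
      ring
    rw [e6]
    linarith
  have h6 : ((PP E V k : ℕ) : ℝ) ≥ ∑ f ∈ CC E (V.erase y) k, ((k : ℝ) - bk E V k f y) := by
    rw [hc, Nat.cast_sum]
    refine Finset.sum_le_sum fun f _ => ?_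
    rcases le_total (bk E V k f y) k with h | h
    · rw [Nat.cast_sub h]
    · rw [Nat.sub_eq_zero_of_le h, Nat.cast_zero]
      have : (k : ℝ) ≤ bk E V k f y := by exact_mod_cast h
      linarith
  rw [Finset.sum_sub_distrib, Finset.sum_const, nsmul_eq_mul] at h6
  have e5 : ((CC E (V.erase y) k).card : ℝ) = PP E (V.erase y) k := rfl
  rw [e5] at h6
  have h7 : (((k - DX n D0 r) * PP E (V.erase y) k : ℕ) : ℝ) ≤ (PP E V k : ℕ) := by
    rw [Nat.cast_mul, hDR]
    nlinarith
  exact_mod_cast h7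

theorem st_XF1 (h1 : ST_CNT) (h2 : ST_GNUM) : ST_XF1 := by
  classical
  obtain ⟨n₁, hn₁⟩ := h2
  refine ⟨max n₁ 3, ?_⟩
  intro n hn D0 r k E W0 hR hk
  have hn1 : n₁ ≤ n := le_trans (le_max_left _ _) hn
  obtain ⟨hr4, -, hDX, -, hk1, hnl, hnX, -, -⟩ := hn₁ n hn1 D0 r k hR.d0 hR.r0 hk
  have hDk : DX n D0 r < k := by omega
  have hws : ∀ y, y ∉ W0 →
      ws (E.filter (fun e => e ⊆ univ \ W0)) r ((k : ℝ) - DX n D0 r) y ≤ 1 := by
    intro y hy
    refine le_trans (Finset.sum_le_sum fun e _ => ?_) (le_trans (hR.wt y hy) (by norm_num))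
    have h3 : 0 ≤ 1 / ((k : ℝ) - DX n D0 r) := by
      have := hnl.trans_le hnX
      positivity
    exact pow_le_pow_left₀ h3 (one_div_le_one_div_of_le hnl hnX) _
  have main : ∀ m : ℕ, ∀ W T : Finset (Fin n), Disjoint T W0 → Disjoint W T →
      (W ∪ T).card = m → (k - DX n D0 r) ^ T.card * PP E W k ≤ PP E (W ∪ T) k := by
    intro m
    induction m using Nat.strong_induction_on with
    | _ m ih =>
      intro W T hT0 hWT hm
      rcases T.eq_empty_or_nonempty with hTe | ⟨y, hyT⟩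
      · subst hTe
        simp
      · have hyV : y ∈ W ∪ T := mem_union_right _ hyT
        have hyW : y ∉ W := fun h => disjoint_left.1 hWT h hyT
        have hy0 : y ∉ W0 := disjoint_left.1 hT0 hyT
        have her : (W ∪ T).erase y = W ∪ T.erase y := by
          rw [erase_union_distrib, erase_eq_of_notMem hyW]
        have hlt : ((W ∪ T).erase y).card < m := by
          rw [card_erase_of_mem hyV, hm]
          have : 0 < (W ∪ T).card := card_pos.2 ⟨y, hyV⟩
          omega
        have hstep := xf60_step h1 D0 r k E W0 hR.two hr4 hDk (W ∪ T) y hyV (hR.deg y hy0)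
          (hws y hy0) (fun U hU0 hUV => by
            have h5 := ih _ hlt ((W ∪ T).erase y \ U) U hU0 sdiff_disjoint
              (by rw [sdiff_union_of_subset hUV])
            rwa [sdiff_union_of_subset hUV] at h5)
        have h6 := ih _ hlt W (T.erase y) (disjoint_of_subset_left (erase_subset _ _) hT0)
          (disjoint_of_subset_right (erase_subset _ _) hWT) (by rw [her])
        rw [← her] at h6
        have h7 : T.card = (T.erase y).card + 1 := (card_erase_add_one hyT).symm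
        rw [h7, pow_succ]
        calc (k - DX n D0 r) ^ (T.erase y).card * (k - DX n D0 r) * PP E W k
            = (k - DX n D0 r) * ((k - DX n D0 r) ^ (T.erase y).card * PP E W k) := by ring
          _ ≤ (k - DX n D0 r) * PP E ((W ∪ T).erase y) k := Nat.mul_le_mul_left _ h6
          _ ≤ PP E (W ∪ T) k := hstep
  intro W T hT0 hWT
  exact main _ W T hT0 hWT rfl

end Pool.Agent.Helper5.WD
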